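import Pool.Agent.W668.PI.Stm

set_option autoImplicit false

/-! # PI-MIL and PI-CAN: averaging and extension operators between `C(2^ω)` and `C[0,1]` -/

open Filter Topology

namespace Pool.Agent.W503.PI

open Pool.Agent.W668.PI

abbrev X := ℕ → Bool
abbrev I := unitInterval

/-- put a digit in front -/
def cons (d : Bool) (z : X) : X
  | 0 => d
  | i + 1 => z i

lemma cons_tail (z : X) : cons (z 0) (fun i => z (i + 1)) = z := by
  funext i
  cases i <;> rfl

lemma unif (F : C(X, ℝ)) (ε : ℝ) (hε : 0 < ε) :
    ∃ N, ∀ z z' : X, (∀ i < N, z i = z' i) → |F z - F z'| ≤ ε := by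
  by_contra h
  push Not at h
  choose z z' h1 h2 using h
  obtain ⟨a, φ, hφ, ha⟩ := CompactSpace.tendsto_subseq z
  have hb : Tendsto (fun n => z' (φ n)) atTop (𝓝 a) := by
    rw [tendsto_pi_nhds] at ha ⊢
    intro i
    refine (ha i).congr' ?_
    filter_upwards [eventually_gt_atTop i] with n hn
    exact h1 (φ n) i (lt_of_lt_of_le hn (hφ.id_le n))
  have h3 := (((F.continuous.tendsto a).comp ha).sub ((F.continuous.tendsto a).comp hb)).abs
  rw [sub_self, abs_zero] at h3
  obtain ⟨n, hn⟩ := (h3.eventually (gt_mem_nhds hε)).exists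
  exact absurd hn (not_lt.2 (h2 (φ n)).le)

/-! ### the operators of finite level -/

/-- operators of finite level -/
noncomputable def M (p : I → ℝ) (g0 g1 : I → I) : ℕ → (X → ℝ) → I → ℝ
  | 0, F, _ => F (fun _ => false)
  | n + 1, F, t => (1 - p t) * M p g0 g1 n (fun z => F (cons false z)) (g0 t) +
      p t * M p g0 g1 n (fun z => F (cons true z)) (g1 t)

variable {p : I → ℝ} {g0 g1 : I → I}

lemma M_cont (hp : Continuous p) (h0 : Continuous g0) (h1 : Continuous g1) (n : ℕ) :
    ∀ F : X → ℝ, Continuous (M p g0 g1 n F) := by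
  induction n with
  | zero => intro F; exact continuous_const
  | succ n ih =>
    intro F
    exact ((continuous_const.sub hp).mul ((ih _).comp h0)).add (hp.mul ((ih _).comp h1))

lemma M_add (n : ℕ) : ∀ (F G : X → ℝ) (t : I),
    M p g0 g1 n (fun z => F z + G z) t = M p g0 g1 n F t + M p g0 g1 n G t := by
  induction n with
  | zero => intro F G t; rfl
  | succ n ih =>
    intro F G t
    simp only [M]
    rw [ih (fun z => F (cons false z)) (fun z => G (cons false z)),
      ih (fun z => F (cons true z)) (fun z => G (cons true z))]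
    ring

lemma M_smul (n : ℕ) : ∀ (c : ℝ) (F : X → ℝ) (t : I),
    M p g0 g1 n (fun z => c * F z) t = c * M p g0 g1 n F t := by
  induction n with
  | zero => intro F G t; rfl
  | succ n ih =>
    intro c F t
    simp only [M]
    rw [ih c (fun z => F (cons false z)), ih c (fun z => F (cons true z))]
    ring

section pos
variable (hp0 : ∀ t, 0 ≤ p t) (hp1 : ∀ t, p t ≤ 1)
include hp0 hp1

lemma M_le (n : ℕ) : ∀ (F : X → ℝ) (a : ℝ), (∀ z, F z ≤ a) → ∀ t, M p g0 g1 n F t ≤ a := by
  induction n with
  | zero => intro F a h t; exact h _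
  | succ n ih =>
    intro F a h t
    simp only [M]
    have h1 := ih (fun z => F (cons false z)) a (fun z => h _) (g0 t)
    have h2 := ih (fun z => F (cons true z)) a (fun z => h _) (g1 t)
    have h3 := mul_le_mul_of_nonneg_left h1 (sub_nonneg.2 (hp1 t))
    have h4 := mul_le_mul_of_nonneg_left h2 (hp0 t)
    linarith

lemma le_M (n : ℕ) (F : X → ℝ) (a : ℝ) (h : ∀ z, a ≤ F z) (t : I) : a ≤ M p g0 g1 n F t := by
  have h1 := M_le (g0 := g0) (g1 := g1) hp0 hp1 n (fun z => (-1) * F z) (-a)
    (fun z => by have := h z; linarith) t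
  rw [M_smul] at h1
  linarith

lemma M_agree (N : ℕ) : ∀ n m, N ≤ n → N ≤ m → ∀ (F G : X → ℝ) (ε : ℝ),
    (∀ z z' : X, (∀ i < N, z i = z' i) → F z ≤ G z' + ε) →
    ∀ t, M p g0 g1 n F t ≤ M p g0 g1 m G t + ε := by
  induction N with
  | zero =>
    intro n m _ _ F G ε h t
    have h1 : ∀ z', M p g0 g1 n F t - ε ≤ G z' := by
      intro z'
      have := M_le (g0 := g0) (g1 := g1) hp0 hp1 n F (G z' + ε)
        (fun z => h z z' (fun i hi => absurd hi (by omega))) t
      linarith
    have := le_M (g0 := g0) (g1 := g1) hp0 hp1 m G _ h1 t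
    linarith
  | succ N ih =>
    intro n m hn hm F G ε h t
    obtain ⟨n, rfl⟩ : ∃ k, n = k + 1 := ⟨n - 1, by omega⟩
    obtain ⟨m, rfl⟩ : ∃ k, m = k + 1 := ⟨m - 1, by omega⟩
    simp only [M]
    have key : ∀ d : Bool, ∀ s, M p g0 g1 n (fun z => F (cons d z)) s ≤
        M p g0 g1 m (fun z => G (cons d z)) s + ε := by
      intro d s
      apply ih n m (by omega) (by omega)
      intro z z' hz
      apply h
      intro i hi
      cases i with
      | zero => rfl
      | succ i => exact hz i (by omega)
    have h3 := mul_le_mul_of_nonneg_left (key false (g0 t)) (sub_nonneg.2 (hp1 t))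
    have h4 := mul_le_mul_of_nonneg_left (key true (g1 t)) (hp0 t)
    linarith

lemma M_close (F : C(X, ℝ)) (ε : ℝ) (hε : 0 < ε) : ∃ N, ∀ n m, N ≤ n → N ≤ m → ∀ t,
    |M p g0 g1 n F t - M p g0 g1 m F t| ≤ ε := by
  obtain ⟨N, hN⟩ := unif F ε hε
  refine ⟨N, fun n m hn hm t => ?_⟩
  have h : ∀ z z' : X, (∀ i < N, z i = z' i) → F z ≤ F z' + ε := by
    intro z z' hz
    have := (abs_le.1 (hN z z' hz)).2
    linarith
  have h1 := M_agree (g0 := g0) (g1 := g1) hp0 hp1 N n m hn hm F F ε h t
  have h2 := M_agree (g0 := g0) (g1 := g1) hp0 hp1 N m n hm hn F F ε h t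
  rw [abs_le]
  constructor <;> linarith

theorem exists_U (hp : Continuous p) (h0 : Continuous g0) (h1 : Continuous g1) :
    ∃ U : C(X, ℝ) →L[ℝ] C(I, ℝ),
      (∀ f : C(X, ℝ), (∀ x, 0 ≤ f x) → ∀ y, 0 ≤ U f y) ∧ U 1 = 1 ∧
      ∀ (F : C(X, ℝ)) (t : I), Tendsto (fun n => M p g0 g1 n F t) atTop (𝓝 (U F t)) := by
  have hc : ∀ (F : C(X, ℝ)) (t : I), ∃ l, Tendsto (fun n => M p g0 g1 n F t) atTop (𝓝 l) := by
    intro F t
    apply cauchySeq_tendsto_of_complete
    rw [Metric.cauchySeq_iff]
    intro ε hε
    obtain ⟨N, hN⟩ := M_close (g0 := g0) (g1 := g1) hp0 hp1 F (ε / 2) (by linarith)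
    refine ⟨N, fun m hm n hn => ?_⟩
    rw [Real.dist_eq]
    have := hN m n hm hn t
    linarith
  choose u hu using hc
  have hun : ∀ F : C(X, ℝ), TendstoUniformly (fun n => M p g0 g1 n F) (u F) atTop := by
    intro F
    rw [Metric.tendstoUniformly_iff]
    intro ε hε
    obtain ⟨N, hN⟩ := M_close (g0 := g0) (g1 := g1) hp0 hp1 F (ε / 2) (by linarith)
    filter_upwards [eventually_ge_atTop N] with n hn t
    rw [Real.dist_eq]
    have h2 : Tendsto (fun m => |M p g0 g1 m F t - M p g0 g1 n F t|) atTop
        (𝓝 |u F t - M p g0 g1 n F t|) := ((hu F t).sub_const _).abs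
    have h3 : |u F t - M p g0 g1 n F t| ≤ ε / 2 := by
      apply le_of_tendsto h2
      filter_upwards [eventually_ge_atTop N] with m hm
      exact hN m n hm hn t
    linarith
  have hcont : ∀ F, Continuous (u F) := fun F =>
    (hun F).continuous (Eventually.of_forall fun n => M_cont hp h0 h1 n F).frequently
  let L : C(X, ℝ) →ₗ[ℝ] C(I, ℝ) :=
    { toFun := fun F => ⟨u F, hcont F⟩
      map_add' := by
        intro F G
        ext t
        refine tendsto_nhds_unique (hu (F + G) t) ?_
        refine ((hu F t).add (hu G t)).congr fun n => ?_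
        exact (M_add n F G t).symm
      map_smul' := by
        intro c F
        ext t
        refine tendsto_nhds_unique (hu (c • F) t) ?_
        refine ((hu F t).const_mul c).congr fun n => ?_
        exact (M_smul n c F t).symm }
  have hL : ∀ F t, L F t = u F t := fun F t => rfl
  have hb : ∀ F, ‖L F‖ ≤ 1 * ‖F‖ := by
    intro F
    rw [one_mul, ContinuousMap.norm_le _ (norm_nonneg _)]
    intro t
    rw [hL, Real.norm_eq_abs, abs_le]
    have hF : ∀ z, |F z| ≤ ‖F‖ := fun z => F.norm_coe_le_norm z
    constructor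
    · apply ge_of_tendsto (hu F t)
      exact Eventually.of_forall fun n => le_M hp0 hp1 n F _ (fun z => (abs_le.1 (hF z)).1) t
    · apply le_of_tendsto (hu F t)
      exact Eventually.of_forall fun n => M_le hp0 hp1 n F _ (fun z => (abs_le.1 (hF z)).2) t
  refine ⟨L.mkContinuous 1 hb, ?_, ?_, ?_⟩
  · intro f hf y
    change 0 ≤ u f y
    apply ge_of_tendsto (hu f y)
    exact Eventually.of_forall fun n => le_M hp0 hp1 n f _ hf y
  · ext t
    change u 1 t = 1
    apply le_antisymm
    · apply le_of_tendsto (hu 1 t)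
      exact Eventually.of_forall fun n => M_le hp0 hp1 n _ _ (fun z => le_rfl) t
    · apply ge_of_tendsto (hu 1 t)
      exact Eventually.of_forall fun n => le_M hp0 hp1 n _ _ (fun z => le_rfl) t
  · intro F t
    exact hu F t

end pos

/-! ### digit expansions -/

/-- `ψ r z = (1 - r) ∑ r^i z_i` -/
noncomputable def psi (r : ℝ) (z : X) : ℝ := (1 - r) * ∑' i, r ^ i * (if z i = true then 1 else 0)

lemma psi_summable {r : ℝ} (h0 : 0 < r) (h1 : r < 1) (z : X) :
    Summable (fun i => r ^ i * (if z i = true then (1 : ℝ) else 0)) := by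
  refine Summable.of_nonneg_of_le (fun i => ?_) (fun i => ?_) (summable_geometric_of_lt_one h0.le h1)
  · split_ifs <;> positivity
  · split_ifs
    · simp
    · simp only [mul_zero]; positivity

lemma psi_cont {r : ℝ} (h0 : 0 < r) (h1 : r < 1) : Continuous (psi r) := by
  unfold psi
  refine continuous_const.mul ?_
  refine continuous_tsum (u := fun i => r ^ i) (fun i => ?_) (summable_geometric_of_lt_one h0.le h1)
    (fun i z => ?_)
  · refine continuous_const.mul ?_
    have : Continuous (fun b : Bool => if b = true then (1 : ℝ) else 0) := continuous_of_discreteTopology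
    exact this.comp (continuous_apply i)
  · rw [Real.norm_eq_abs, abs_of_nonneg (by split_ifs <;> positivity)]
    split_ifs
    · simp
    · simp only [mul_zero]; positivity

lemma psi_mem {r : ℝ} (h0 : 0 < r) (h1 : r < 1) (z : X) : psi r z ∈ Set.Icc (0 : ℝ) 1 := by
  have h2 : 0 < 1 - r := by linarith
  constructor
  · unfold psi
    refine mul_nonneg h2.le (tsum_nonneg fun i => ?_)
    split_ifs <;> positivity
  · unfold psi
    have h3 : ∑' i, r ^ i * (if z i = true then (1 : ℝ) else 0) ≤ ∑' i : ℕ, r ^ i := by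
      refine (psi_summable h0 h1 z).tsum_le_tsum (fun i => ?_) (summable_geometric_of_lt_one h0.le h1)
      split_ifs
      · simp
      · simp only [mul_zero]; positivity
    rw [tsum_geometric_of_lt_one h0.le h1] at h3
    calc _ ≤ (1 - r) * (1 - r)⁻¹ := mul_le_mul_of_nonneg_left h3 h2.le
      _ = 1 := mul_inv_cancel₀ h2.ne'

lemma psi_cons {r : ℝ} (h0 : 0 < r) (h1 : r < 1) (d : Bool) (z : X) :
    psi r (cons d z) = r * psi r z + (1 - r) * (if d = true then 1 else 0) := by
  unfold psi
  rw [(psi_summable h0 h1 (cons d z)).tsum_eq_zero_add]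
  have : ∀ i, r ^ (i + 1) * (if cons d z (i + 1) = true then (1 : ℝ) else 0) =
      r * (r ^ i * (if z i = true then (1 : ℝ) else 0)) := by
    intro i
    change r ^ (i + 1) * (if z i = true then (1 : ℝ) else 0) = _
    ring
  simp only [this]
  rw [tsum_mul_left]
  change (1 - r) * (r ^ 0 * (if d = true then 1 else 0) + _) = _
  ring

/-- as a continuous map to the unit interval -/
noncomputable def Psi (r : ℝ) (h0 : 0 < r) (h1 : r < 1) : C(X, I) where
  toFun z := ⟨psi r z, psi_mem h0 h1 z⟩
  continuous_toFun := (psi_cont h0 h1).subtype_mk _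

lemma Psi_coe (r : ℝ) (h0 : 0 < r) (h1 : r < 1) (z : X) : (Psi r h0 h1 z : ℝ) = psi r z := rfl

/-- the weight -/
noncomputable def pw (t : I) : ℝ := max 0 (min 1 (3 * (t : ℝ) - 1))

lemma pw_cont : Continuous pw := by unfold pw; fun_prop
lemma pw_nonneg (t : I) : 0 ≤ pw t := le_max_left _ _
lemma pw_le (t : I) : pw t ≤ 1 := max_le zero_le_one (min_le_left _ _)

theorem mil : S_MIL := by
  have hr0 : (0 : ℝ) < 2 / 3 := by norm_num
  have hr1 : (2 / 3 : ℝ) < 1 := by norm_num
  let g0 : I → I := fun t => Set.projIcc 0 1 zero_le_one (3 / 2 * (t : ℝ))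
  let g1 : I → I := fun t => Set.projIcc 0 1 zero_le_one ((3 * (t : ℝ) - 1) / 2)
  have hg0 : Continuous g0 := continuous_projIcc.comp (by fun_prop)
  have hg1 : Continuous g1 := continuous_projIcc.comp (by fun_prop)
  obtain ⟨U, hU1, hU2, hU3⟩ := exists_U (g0 := g0) (g1 := g1) pw_nonneg pw_le pw_cont hg0 hg1
  have claim : ∀ (n : ℕ) (F : X → ℝ) (b δ : ℝ) (t : I),
      (∀ z, |psi (2 / 3) z - t| ≤ (2 / 3) ^ n → |F z - b| ≤ δ) → |M pw g0 g1 n F t - b| ≤ δ := by
    intro n
    induction n with
    | zero =>
      intro F b δ t h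
      apply h
      have h2 := psi_mem hr0 hr1 (fun _ => false)
      have h3 := t.2
      rw [pow_zero, abs_le]
      constructor <;> linarith [h2.1, h2.2, h3.1, h3.2]
    | succ n ih =>
      intro F b δ t h
      have ht := t.2
      simp only [M]
      have e : (1 - pw t) * M pw g0 g1 n (fun z => F (cons false z)) (g0 t) +
          pw t * M pw g0 g1 n (fun z => F (cons true z)) (g1 t) - b =
          (1 - pw t) * (M pw g0 g1 n (fun z => F (cons false z)) (g0 t) - b) +
          pw t * (M pw g0 g1 n (fun z => F (cons true z)) (g1 t) - b) := by ring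
      rw [e]
      have hp0 := pw_nonneg t
      have hp1 := pw_le t
      have a0 : (1 - pw t) * |M pw g0 g1 n (fun z => F (cons false z)) (g0 t) - b| ≤
          (1 - pw t) * δ := by
        rcases hp1.eq_or_lt with h1 | h1
        · rw [h1]; simp
        · refine mul_le_mul_of_nonneg_left ?_ (by linarith)
          apply ih
          intro z hz
          apply h
          have ht1 : (t : ℝ) < 2 / 3 := by
            by_contra hc
            push Not at hc
            have : pw t = 1 := by
              unfold pw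
              rw [min_eq_left (by linarith), max_eq_right zero_le_one]
            linarith
          have hg : (g0 t : ℝ) = 3 / 2 * (t : ℝ) := by
            change (Set.projIcc (0 : ℝ) 1 zero_le_one (3 / 2 * (t : ℝ)) : ℝ) = _
            rw [Set.projIcc_of_mem zero_le_one ⟨by linarith [ht.1], by linarith⟩]
          rw [hg] at hz
          rw [psi_cons hr0 hr1]
          have e2 : 2 / 3 * psi (2 / 3) z + (1 - 2 / 3) * (if false = true then (1 : ℝ) else 0) - t =
              2 / 3 * (psi (2 / 3) z - 3 / 2 * (t : ℝ)) := by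
            simp only [Bool.false_eq_true, if_false]; ring
          rw [e2, abs_mul, abs_of_pos hr0, pow_succ]
          linarith
      have a1 : pw t * |M pw g0 g1 n (fun z => F (cons true z)) (g1 t) - b| ≤ pw t * δ := by
        rcases hp0.eq_or_lt with h1 | h1
        · rw [← h1]; simp
        · refine mul_le_mul_of_nonneg_left ?_ hp0
          apply ih
          intro z hz
          apply h
          have ht1 : 1 / 3 < (t : ℝ) := by
            by_contra hc
            push Not at hc
            have : pw t = 0 := by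
              unfold pw
              rw [max_eq_left]
              exact (min_le_right _ _).trans (by linarith)
            linarith
          have hg : (g1 t : ℝ) = (3 * (t : ℝ) - 1) / 2 := by
            change (Set.projIcc (0 : ℝ) 1 zero_le_one ((3 * (t : ℝ) - 1) / 2) : ℝ) = _
            rw [Set.projIcc_of_mem zero_le_one ⟨by linarith, by linarith [ht.2]⟩]
          rw [hg] at hz
          rw [psi_cons hr0 hr1]
          have e2 : 2 / 3 * psi (2 / 3) z + (1 - 2 / 3) * (if true = true then (1 : ℝ) else 0) - t =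
              2 / 3 * (psi (2 / 3) z - (3 * (t : ℝ) - 1) / 2) := by
            simp only [if_true]; ring
          rw [e2, abs_mul, abs_of_pos hr0, pow_succ]
          linarith
      calc _ ≤ |(1 - pw t) * (M pw g0 g1 n (fun z => F (cons false z)) (g0 t) - b)| +
            |pw t * (M pw g0 g1 n (fun z => F (cons true z)) (g1 t) - b)| := abs_add_le _ _
        _ ≤ (1 - pw t) * δ + pw t * δ := by
          rw [abs_mul, abs_mul, abs_of_nonneg hp0, abs_of_nonneg (by linarith : 0 ≤ 1 - pw t)]
          exact add_le_add a0 a1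
        _ = δ := by ring
  refine ⟨Psi (2 / 3) hr0 hr1, U, hU1, hU2, ?_⟩
  intro g
  ext t
  refine tendsto_nhds_unique (hU3 _ t) ?_
  rw [Metric.tendsto_atTop]
  intro ε hε
  have hgu := CompactSpace.uniformContinuous_of_continuous g.continuous
  rw [Metric.uniformContinuous_iff] at hgu
  obtain ⟨δ, hδ, hgδ⟩ := hgu (ε / 2) (by linarith)
  obtain ⟨N, hN⟩ := exists_pow_lt_of_lt_one hδ hr1
  refine ⟨N, fun n hn => ?_⟩
  rw [Real.dist_eq]
  have := claim n (fun z => g (Psi (2 / 3) hr0 hr1 z)) (g t) (ε / 2) t (by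
    intro z hz
    have h1 : dist (Psi (2 / 3) hr0 hr1 z) t < δ := by
      rw [Subtype.dist_eq, Real.dist_eq, Psi_coe]
      calc _ ≤ (2 / 3 : ℝ) ^ n := hz
        _ ≤ (2 / 3) ^ N := pow_le_pow_of_le_one hr0.le hr1.le hn
        _ < δ := hN
    have := hgδ h1
    rw [Real.dist_eq] at this
    exact this.le)
  have e : (M pw g0 g1 n (⇑(g.comp (Psi (2 / 3) hr0 hr1))) t) =
    M pw g0 g1 n (fun z => g (Psi (2 / 3) hr0 hr1 z)) t := rfl
  rw [e]
  linarith

theorem can : S_CAN := by
  have hr0 : (0 : ℝ) < 1 / 3 := by norm_num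
  have hr1 : (1 / 3 : ℝ) < 1 := by norm_num
  let g0 : I → I := fun t => Set.projIcc 0 1 zero_le_one (3 * (t : ℝ))
  let g1 : I → I := fun t => Set.projIcc 0 1 zero_le_one (3 * (t : ℝ) - 2)
  have hg0 : Continuous g0 := continuous_projIcc.comp (by fun_prop)
  have hg1 : Continuous g1 := continuous_projIcc.comp (by fun_prop)
  obtain ⟨U, hU1, hU2, hU3⟩ := exists_U (g0 := g0) (g1 := g1) pw_nonneg pw_le pw_cont hg0 hg1
  have claim : ∀ (n : ℕ) (F : X → ℝ) (z : X),
      M pw g0 g1 n F (Psi (1 / 3) hr0 hr1 z) = F (fun i => if i < n then z i else false) := by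
    intro n
    induction n with
    | zero => intro F z; simp [M]
    | succ n ih =>
      intro F z
      simp only [M]
      have hc := psi_cons hr0 hr1 (z 0) (fun i => z (i + 1))
      rw [cons_tail] at hc
      have hm := psi_mem hr0 hr1 (fun i => z (i + 1))
      have hcons : ∀ d : Bool, z 0 = d → (fun i => if i < n + 1 then z i else false) =
          cons d (fun i => if i < n then z (i + 1) else false) := by
        intro d hd
        funext i
        cases i with
        | zero => simp [cons, hd]
        | succ i => simp [cons]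
      cases hz : z 0 with
      | false =>
        rw [hz] at hc
        simp only [Bool.false_eq_true, if_false, mul_zero, add_zero] at hc
        have hp : pw (Psi (1 / 3) hr0 hr1 z) = 0 := by
          unfold pw
          rw [Psi_coe, max_eq_left]
          exact (min_le_right _ _).trans (by rw [hc]; linarith [hm.2])
        have hg : g0 (Psi (1 / 3) hr0 hr1 z) = Psi (1 / 3) hr0 hr1 (fun i => z (i + 1)) := by
          apply Subtype.ext
          change (Set.projIcc (0 : ℝ) 1 zero_le_one (3 * (Psi (1 / 3) hr0 hr1 z : ℝ)) : ℝ) = _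
          rw [Psi_coe, hc, Psi_coe]
          have : 3 * (1 / 3 * psi (1 / 3) fun i => z (i + 1)) = psi (1 / 3) fun i => z (i + 1) := by
            ring
          rw [this, Set.projIcc_of_mem zero_le_one hm]
        rw [hp, hg, ih, hcons false hz]
        ring
      | true =>
        rw [hz] at hc
        simp only [if_true, mul_one] at hc
        have hp : pw (Psi (1 / 3) hr0 hr1 z) = 1 := by
          unfold pw
          rw [Psi_coe, min_eq_left (by rw [hc]; linarith [hm.1]), max_eq_right zero_le_one]
        have hg : g1 (Psi (1 / 3) hr0 hr1 z) = Psi (1 / 3) hr0 hr1 (fun i => z (i + 1)) := by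
          apply Subtype.ext
          change (Set.projIcc (0 : ℝ) 1 zero_le_one (3 * (Psi (1 / 3) hr0 hr1 z : ℝ) - 2) : ℝ) = _
          rw [Psi_coe, hc, Psi_coe]
          have : 3 * ((1 / 3 * psi (1 / 3) fun i => z (i + 1)) + (1 - 1 / 3)) - 2 =
            psi (1 / 3) fun i => z (i + 1) := by ring
          rw [this, Set.projIcc_of_mem zero_le_one hm]
        rw [hp, hg, ih, hcons true hz]
        ring
  refine ⟨Psi (1 / 3) hr0 hr1, U, hU1, hU2, ?_⟩
  intro f z
  refine tendsto_nhds_unique (hU3 f _) ?_
  rw [Metric.tendsto_atTop]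
  intro ε hε
  obtain ⟨N, hN⟩ := unif f (ε / 2) (by linarith)
  refine ⟨N, fun n hn => ?_⟩
  rw [Real.dist_eq, claim]
  have := hN (fun i => if i < n then z i else false) z (fun i hi => by
    rw [if_pos (by omega)])
  linarith

end Pool.Agent.W503.PI
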